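import Pool.Agent.FS.EveryN.Main

open Pool.Agent.Lib.MP_7939ee_co

/-- For every `n ≥ 4` some instance with `n` agents and `n + 7` goods, in which two agents have
the valuation `b` and all others the valuation `a`, has no `α`-GMMS allocation with `α > 20/21`. -/
theorem Pool.Agent.Results.MP_7939ee_co.EveryN.result (n m : ℕ) (hn : 4 ≤ n) (hm : m = n + 7) :
    ∃ a b : Fin m → ℝ, (∀ g, 0 ≤ a g ∧ 0 ≤ b g) ∧
      ∀ α : ℝ, 20 / 21 < α → ∀ A : Fin m → Fin n,
        ¬ IsGMMS α (fun i => if i.val < 2 then b else a) A := by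
  obtain ⟨K, rfl⟩ := Nat.exists_eq_add_of_le hn
  obtain rfl : m = 11 + K := by omega
  refine ⟨fun g => (Pool.Agent.FS.EveryN.av g : ℝ), fun g => (Pool.Agent.FS.EveryN.bv g : ℝ),
    fun _ => ⟨Nat.cast_nonneg _, Nat.cast_nonneg _⟩, fun α hα A hA =>
      Pool.Agent.FS.EveryN.main K α (by exact_mod_cast hα) A ?_⟩
  convert hA using 1
  funext i g
  unfold Pool.Agent.FS.EveryN.W
  split_ifs <;> rfl
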