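import Pool.Agent.Lib.MP_7939ee_co.H90Exact

open Pool.Agent.Lib.MP_7939ee_co

/-- Exact GMMS allocations exist if the values of each agent are `0`, `b` and a multiple of `b`. -/
theorem Pool.Agent.Results.MP_7939ee_co.ExactThreeValues.result (n m : ℕ) (hn : 0 < n)
    (v : Fin n → Fin m → ℝ)
    (hv : ∀ i, ∃ (b : ℝ) (q : ℕ), 0 ≤ b ∧ ∀ g, v i g = 0 ∨ v i g = b ∨ v i g = q * b) :
    ∃ A : Fin m → Fin n, IsGMMS 1 v A :=
  H90.exact_gmms hn v hv
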