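import Pool.Agent.FS.GmmsReplica.Main

open Finset Pool.Agent.Lib.MP_7939ee_co

/-- With `n` types of agents and `m` types of goods, all multiplicities divisible by a number `d`
that depends only on `n`, `m` and a bound `K` on the ratio of values, there is an exact GMMS
allocation that is Pareto optimal. -/
theorem Pool.Agent.Results.MP_7939ee_co.ManyCopies.result (n m K : ℕ) : ∃ d : ℕ, 0 < d ∧
    ∀ (v : Fin n → Fin m → ℝ) (N M : ℕ) (τ : Fin N → Fin n) (γ : Fin M → Fin m), 0 < N →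
      (∀ i g, 0 ≤ v i g) →
      (∀ i, d ∣ (univ.filter fun a => τ a = i).card) →
      (∀ g, d ∣ (univ.filter fun j => γ j = g).card) →
      (∀ i g, 0 < v i g →
        ∑ j, v i (γ j) ≤ (K : ℝ) * ((univ.filter fun a => τ a = i).card : ℝ) * v i g) →
      ∃ A : Fin M → Fin N, IsGMMS 1 (fun a j => v (τ a) (γ j)) A ∧ ∀ A' : Fin M → Fin N,
        (∀ a, ∑ j ∈ bundle A a, v (τ a) (γ j) ≤ ∑ j ∈ bundle A' a, v (τ a) (γ j)) →
        ∀ a, ∑ j ∈ bundle A' a, v (τ a) (γ j) ≤ ∑ j ∈ bundle A a, v (τ a) (γ j) :=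
  Pool.Agent.FS.GmmsReplica.main n m K
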