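import Pool.Agent.Lib.MP_7939ee_co.Defs
import Pool.Agent.Lib.MP_7939ee_co.H56Main

open Finset Pool.Agent.Lib.MP_7939ee_co

/-- Every instance with additive valuations has a `2 / 3`-GMMS allocation. -/
theorem Pool.Agent.Results.MP_7939ee_co.TwoThirds.result (n m : ℕ) (hn : 0 < n)
    (v : Fin n → Fin m → ℝ) (hv : ∀ i g, 0 ≤ v i g) :
    ∃ A : Fin m → Fin n, IsGMMS (2 / 3) v A := by
  have : Nonempty (Fin n) := ⟨⟨0, hn⟩⟩
  obtain ⟨A, hA⟩ := exists_alloc_two_thirds v hv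
  refine ⟨A, fun i => ?_⟩
  have hle : gmms v A i ≤ 3 / 2 * ∑ g ∈ bundle A i, v i g := by
    have : Nonempty {S : Finset (Fin n) // i ∈ S} := ⟨⟨univ, mem_univ _⟩⟩
    refine ciSup_le fun S => ?_
    have : Nonempty (Fin S.1.card) := ⟨⟨0, card_pos.2 ⟨i, S.2⟩⟩⟩
    refine ciSup_le fun B => ?_
    obtain ⟨j, hj⟩ := hA i S.1 S.2 B
    refine (ciInf_le (Finite.bddBelow_range _) j).trans (le_of_eq_of_le ?_ hj)
    congr 2
    ext g
    simp [bundle]
  linarith
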